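import Mathlib
import Pool.Agent.CoreRed.Final

/-!
# Reduction of parity questions to subgroups containing a normal subgroup: the exact criterion

Let `G` be a finite group, `p` an odd prime, `A` a set of exponents prime to `|G|`, and `Q` a
normal subgroup of `G` such that the subgroup `sq Q` generated by the squares of the elements of
`Q` has odd order (it is then solvable by the theorem of Feit and Thompson, which is not in Mathlib,
so this is a hypothesis).  Modulo the self-duality and Galois relations and the dihedral relations
for `p`, all characters induced from trivial or quadratic characters of subgroups are integer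
combinations of characters induced from trivial or quadratic characters of subgroups containing `Q`
if and only if this is so for the permutation character on the cosets of a Sylow two-subgroup, if
and only if the only element of `sq Q` of order prime to `p` which is conjugate to its inverse and,
for all exponents `a` in `A`, to its power with exponent `a ^ n` for some odd `n`, is the neutral
element.
-/

namespace Pool.Agent.Results.MP_ddf76b_nt.CoreReduction

open ParityOdd CoreRed

theorem result {G : Type*} [Group G] [Fintype G] (p : ℕ) (hp : p.Prime) (hp2 : p ≠ 2)
    (A : Set ℕ) (hA : ∀ a ∈ A, a.Coprime (Nat.card G)) (Q : Subgroup G) (hQ : Q.Normal)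
    (hodd : Odd (Nat.card (sq Q))) (hsol : Group.IsSolvable (sq Q)) : List.TFAE [
      ∀ (U : Subgroup G) (c : G → ℂ), IsQuad U c →
        Ind U c ∈ quadOver Q ⊔ easy G A ⊔ dihedral G p,
      ∀ S : Sylow 2 G, Ind (S : Subgroup G) (fun _ => 1) ∈ quadOver Q ⊔ easy G A ⊔ dihedral G p,
      ∀ g ∈ sq Q, (orderOf g).Coprime p → Core A g → g = 1] :=
  core_tfae p hp hp2 A hA Q hQ hodd hsol

end Pool.Agent.Results.MP_ddf76b_nt.CoreReduction
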