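import Pool.Agent.CD62.Conv

/-!
# The 2-parity defects of the cubic extensions inside a Galois extension

Let `L/k` be a Galois extension of number fields with group `G`. For subgroups `A ≤ U` of index
three let `d U A` be the defect of the 2-parity formula for an elliptic curve over the fixed field
of `U` whose 2-division cubic is the fixed field of `A`. It only depends on the pair (theorem of
Green and Maistret on curves with isomorphic 2-torsion), it is invariant under conjugation,
additive in permutation characters, and zero after a quadratic base change (Kramer, Tunnell,
T. and V. Dokchitser). These are the fields of the structure `CubicDefect`. If the cubic algebra of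
the 2-division points is not a field there is a rational 2-isogeny and the formula is known.

Let `k` be totally real and let `I` be the set of the complex conjugations in `G`. The pairs
`(U, A)` with `I ⊆ U` are those for which the fixed field of `U` is totally real; for these the
formula is known. The theorem says for which `(G, I)` these properties of `d` give the formula for
all the pairs, that is, for all the elliptic curves `E/K` with `K(E[2])` in `L`: the subgroup
generated by `I` is, up to a normal subgroup `R` whose elements of odd order do not commute with
elements of order three (for example a 2-group), contained in an extension of an elementary abelian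
3-group by an involution which inverts it. No condition is imposed on the Galois group of the
maximal totally real subfield.

Examples. (a) `R = X` the group generated by `I`, `c = 1`: fields `L` of 2-power degree over a
totally real field, such as CM fields. (b) `k = ℚ`, `L` a compositum of Galois closures of
quadratic, cubic, `S₄` and `A₄` fields: `G` has normal subgroups `N ≤ V`, `N` a 2-group, `V / N` an
elementary abelian 3-group, `G / V` an elementary abelian 2-group; `R = N`, `c` a complex
conjugation, and `X / N` is the part of `V / N` inverted by `c`. The complex conjugations are
conjugate to `c`, so they are products of `c` and elements `v` of `V`, and `(c v) ^ 2 = 1` gives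
`v ∈ X`. For a curve over `ℚ` the 2-division field is one of these fields, so the formula holds
over every compositum of quadratic, cubic, `S₄` and `A₄` fields, and also over every number field
of degree at most four (the other quartic fields are quadratic over a subfield).
-/

set_option autoImplicit false

namespace Pool.Agent.Results.MP_ddf76b_nt.CubicFields

open Pool.Agent.CD62

theorem result {G : Type} [Group G] [Finite G] (I : Set G) (hI : ∀ t ∈ I, t * t = 1)
    (hIc : ∀ t ∈ I, ∀ x : G, x * t * x⁻¹ ∈ I) :
    (∀ E : CubicDefect G, (∀ U A : Subgroup G, Cubic U A → I ⊆ U → E.d U A = 0) →
      ∀ U A : Subgroup G, E.d U A = 0) ↔
    ∃ R X : Subgroup G, R.Normal ∧ X.Normal ∧ R ≤ X ∧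
      (∀ r ∈ R, ∀ x : G, Odd (orderOf r) → orderOf x = 3 → r * x = x * r → r = 1) ∧
      ∃ c : G, (∀ x ∈ X, x ^ 3 ∈ R ∧ c * x * c⁻¹ * x ∈ R) ∧ ∀ t ∈ I, t ∈ X ∨ t * c ∈ X :=
  main I hI hIc

end Pool.Agent.Results.MP_ddf76b_nt.CubicFields
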