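import Pool.Agent.KCv.Trans

/-! The `p`-parity conjecture and the parity conjecture for `k`-curves over an arbitrary number
field `K`. -/

set_option autoImplicit false

namespace Pool.Agent.Results.MP_ddf76b_nt.KCurves

open WeierstrassCurve NumberField IsDedekindDomain Pool.Agent.KCd

theorem result :
    -- `K` a quadratic extension of `k = K^s`
    (∀ (K : Type) [Field K] [NumberField K] (E : WeierstrassCurve K) (s : K →+* K),
      (∀ x, s (s x) = x) → (∃ x, s x ≠ x) → ∀ (φ : Conj E s) (m : ℤ), ¬ IsSquare m → φ.Sq m →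
      Even (mwRank E) ∧
      (∀ (p : ℕ) [Fact p.Prime], ¬ IsSquare (m : ℚ_[p]) → Even (rkp E p)) ∧
      Even (Set.ncard {v | SplitAt E v}) ∧
      ∀ w, LocalSigns E {s} w → (∀ v, Moves s v v → SemistableAt E v ∨ w v = 1) →
        (Even (Fintype.card (InfinitePlace K)) ∨ (m < 0 ∧ ∃ α : K, α * s α = m)) →
        rootNumber w = 1 ∧ (-1) ^ mwRank E = rootNumber w ∧
          ∀ (p : ℕ) [Fact p.Prime], ¬ IsSquare (m : ℚ_[p]) → (-1) ^ rkp E p = rootNumber w) ∧
    -- an arbitrary group of automorphisms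
    (∀ (K : Type) [Field K] [NumberField K] (E : WeierstrassCurve K) (G : Type) [Group G]
      [MulSemiringAction G K] [FaithfulSMul G K] (X : KCurve E G),
      (X.NoOdd ℚ → Even (mwRank E)) ∧
      (∀ (p : ℕ) [Fact p.Prime], X.NoOdd ℚ_[p] → Even (rkp E p)) ∧
      ∀ (l1 l2 : ℕ) [Fact l1.Prime] [Fact l2.Prime], l1 ≠ l2 → X.NoOdd ℚ_[l1] → X.NoOdd ℚ_[l2] →
        Even (Set.ncard {v | SplitAt E v}) ∧
        ∀ w, LocalSigns E (Set.range (au K : G → K →+* K)) w →
          (∀ v, Odd (Set.ncard (orb (Set.range (au K : G → K →+* K)) v)) →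
            SemistableAt E v ∨ w v = 1) →
          Even (Fintype.card (InfinitePlace K)) →
          rootNumber w = 1 ∧ (-1) ^ mwRank E = rootNumber w ∧
            ∀ (p : ℕ) [Fact p.Prime], X.NoOdd ℚ_[p] → (-1) ^ rkp E p = rootNumber w) ∧
    -- a family
    (∀ (K : Type) [Field K] [NumberField K] (s : K →+* K) (α c e : K) (ε : ℤ),
      (∀ x, s (s x) = x) → ε = 1 ∨ ε = -1 → α * s α = 2 * ε → s c = -ε * c → s e = -e →
      c ^ 2 / 8 + e ≠ 0 → c ^ 2 / 8 - e ≠ 0 → ∀ E : WeierstrassCurve K,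
      E = ⟨0, c * α, 0, α ^ 2 * (c ^ 2 / 8 + e), 0⟩ →
      E.Δ ≠ 0 ∧ ∃ φ : Conj E s, φ.Sq (2 * ε)) := by
  exact ⟨fun K _ _ E s hs hs1 φ m hm0 hm => quadratic s hs hs1 φ m hm0 hm,
    fun K _ _ E G _ _ _ X => galois X,
    fun K _ _ s α c e ε hs hε hα hc he h1 h2 E hE =>
      family s α c e ε hs hε hα hc he h1 h2 E hE⟩

end Pool.Agent.Results.MP_ddf76b_nt.KCurves
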