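import Mathlib
import Pool.Agent.RegStab.Main

/-!
# The scope of `p`-adic regulator constants for quadratic twists

Let `p` be a prime and `G` a finite group (the Galois group of an extension `L / k` of number
fields).  Integer combinations `τ = ∑ n_i Ind_{U_i} c_i` of characters induced from trivial or
quadratic characters `c_i` of subgroups `U_i` stand for parity statements for the quadratic twists
of an elliptic curve `E / k` over the intermediate fields of `L / k`: the numbers
`T(V) = ∑ n_i dim V^{U_i,c_i}` for `V = X_p(E/L)` are compared with the root number `w(E, τ)`.
Let `F` be a set of pairs `(U, c)` for which `p`-parity is known (for example because `L^U` is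
totally real, or because `E` has a `p`-isogeny over `L^U`); for `p = 2` it must contain the pairs
`(M, c)` with `c` a character of a group containing `M` with index two (Kramer-Tunnell).

The theorem says exactly which parity statements can be obtained from the known ones by Brauer
relations and regulator constants, in `L / k` or in any larger Galois extension `L' / k` (item 2),
and that these are the ones which follow formally from the known cases and the dihedral (`D_2p`)
relations.  (Item 2 has the same known cases, over subfields of `L`; new known cases over other
subfields of `L'` are covered by the theorem for `G'`.)  For odd `p` and empty `F` this is the scope of regulator constants for all elliptic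
curves.  A further equivalent condition, on the projective modules `ℚ_p[G] e` with `e = a b`,
`e* = b a` in `ℤ_p[G]`, is in `Pool/Agent/RegStab/Main.lean` (`EvenProj`).

The notions are in `Pool/Agent/RegStab/Defs.lean` (`FromAbove`), `Pool/Agent/RegRel/Defs.lean`,
`Pool/Agent/RegScope/MainDefs.lean`, `PairDefs.lean` (`galExp`) and `Defs.lean` (`IsChar`, `eig`,
`IsForm`, `IsBrauer`, `DDatum`, `ddim`).
-/

namespace Pool.Agent.Results.MP_ddf76b_nt.RegulatorConstants

open RegScope RegRel RegStab

theorem result (p : ℕ) [Fact p.Prime] {G : Type} [Group G] [Fintype G]
    -- the known cases
    (F : Set (Subgroup G × (G → ℤˣ))) (hF : ∀ x ∈ F, IsChar x.1 x.2)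
    (hF2 : p = 2 → ∀ (J M : Subgroup G) (c : G → ℤˣ), M ≤ J → M.relIndex J = 2 → IsChar J c →
      (M, c) ∈ F)
    {ι : Type} [Fintype ι] (U : ι → Subgroup G) (c : ι → G → ℤˣ) (n : ι → ℤ)
    (hc : ∀ i, IsChar (U i) (c i)) :
    List.TFAE [
      -- (1) `T` is the parity of the `p`-adic order of the regulator constants of a Brauer relation
      -- plus dimensions of known cases
      FromBrauer p F U c n,
      -- (2) the same in some group `G'` with a surjection `π : G' → G`, for the inverse images
      FromAbove p F U c n,
      -- (3) `τ` is a sum of `D_2p` relations (`p` odd) and known cases up to self-duality and Galois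
      -- invariance
      tau U c n ∈ easyRel p G ⊔ dRel p G ⊔ indRel F,
      -- (4) on the elements of order prime to `p`, `τ` is a sum of known cases up to self-duality
      -- and Galois invariance
      ∃ r ∈ easyRel p G ⊔ indRel F, ∀ g, (orderOf g).Coprime p → tau U c n g = r g,
      -- (5) parity for the `D_2p` relations and the known cases implies parity for `τ`
      Forced p F U c n] := by
  have h := scope_stab hF hF2 U c n hc
  tfae_have 1 ↔ 2 := h.out 0 1
  tfae_have 1 ↔ 3 := h.out 0 2
  tfae_have 1 ↔ 4 := h.out 0 3
  tfae_have 1 ↔ 5 := h.out 0 4
  tfae_finish

end Pool.Agent.Results.MP_ddf76b_nt.RegulatorConstants
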